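import Pool.Agent.H75.GS.Targets

set_option autoImplicit false

namespace Pool.Agent.H97.GS

open Pool.Agent.H6.NB Pool.Agent.H70.OQ Pool.Agent.H75.GS

theorem pf_BUX : T_BUX := by
  intro A A' σ σ' O O' l hA hAA hO hO' hσ
  have hk : ∀ s : List Bool, (key s).length = s.length + 2 := fun s => rfl
  have main : ∀ n (w : List Bool), w.length < n → w.length ≤ l → O w = O' w := by
    intro n
    induction n with
    | zero => intro w hw; omega
    | succ n ih =>
      intro w hw hwl
      rw [hO w, hO' w, hσ w hwl]
      congr 1
      refine decide_eq_decide.2 (exists_congr fun s => and_congr_right fun hs => ?_)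
      have hl : s.length + 2 ≤ l := by rw [← hk s, ← hs]; exact hwl
      have hn : s.length + 2 < n + 1 := by rw [← hk s, ← hs]; exact hw
      rw [← hAA s O' (by omega)]
      refine hA s O O' fun w' hw' => ih w' ?_ ?_
      · have : w'.length ≤ w'.length ^ 2 := Nat.le_self_pow (by norm_num) _
        omega
      · have : w'.length ≤ w'.length ^ 2 := Nat.le_self_pow (by norm_num) _
        omega
  intro w hw
  exact main (w.length + 1) w (by omega) hw

end Pool.Agent.H97.GS
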