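import Pool.Agent.H75.GS.Targets

set_option autoImplicit false

namespace Pool.Agent.H97.GS

open Pool.Agent.H6.NB Pool.Agent.H70.OQ Pool.Agent.H75.GS

open Classical in
theorem pf_CLE (h1 : T_SYX) (h2 : T_CBG) (h3 : T_CLB) : T_CLE := by
  intro W X B Ω _ _ _ _ nn qb few T U D lev S t d h a0 S' M k hS hS1 ht hh hS' hSS ht' hk hM hc hX
    p e P s i
  obtain ⟨c1, c2, c3, c4, c5⟩ := h3 (VV (qb s)) S' hS'
  obtain ⟨s1, s2⟩ := h1 B Ω nn qb D lev S t d h a0 hS1 ht hS
  by_cases hp : few p
  · have : (fun q => decide (Evt few T U D lev a0 h k p e (updC P s i q))) = fun _ => true := by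
      funext q
      exact decide_eq_true (Or.inl hp)
    rw [this]
    exact c1 _ _
  · have g1 := h2 X B Ω nn qb (Dfr D lev a0 e) lev S t d h S' M (fun _ => k 0) (s1 e) hS' hSS ht'
      (fun _ _ => hk 0 hh) hM hc hX (T p) (U p) e P s i
    have g2 := h2 X B Ω nn qb (Daw D lev a0) lev S t d h S' M k s2 hS' hSS ht' hk hM hc hX
      (T p) (U p) e P s i
    refine c3 _ Bool (fun b => if b then (fun q => decide (¬ TyG (accG (Dfr D lev a0 e)
      (updC P s i q)) lev h (fun _ => k 0) h (T p) (U p) e)) else (fun q => decide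
      (¬ TyG (accG (Daw D lev a0) (updC P s i q)) lev h k h (T p) (U p) e))) (fun _ => true) _
      (by simpa using hS') ?_ ?_
    · intro b
      cases b
      · exact g2
      · exact g1
    · intro y
      rw [decide_eq_true_iff]
      constructor
      · rintro (h0 | h0 | h0)
        · exact absurd h0 hp
        · exact ⟨true, decide_eq_true h0⟩
        · exact ⟨false, decide_eq_true h0⟩
      · rintro ⟨b, hb⟩
        cases b
        · exact Or.inr (Or.inr (of_decide_eq_true hb))
        · exact Or.inr (Or.inl (of_decide_eq_true hb))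

end Pool.Agent.H97.GS
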