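import Pool.Agent.H75.GS.Targets2

set_option autoImplicit false

namespace Pool.Agent.H97.GS

open Finset Filter Pool.Agent.H6.NB Pool.Agent.H70.OQ Pool.Agent.H75.GS

theorem geo_bd (g R : ℕ) : ∑ r ∈ range R, (1 : ℝ) / 2 ^ (g + r + 1) = 1 / 2 ^ g - 1 / 2 ^ (g + R) := by
  induction R with
  | zero => simp
  | succ R ih =>
    rw [Finset.sum_range_succ, ih]
    have e : (2 : ℝ) ^ (g + R + 1) = 2 ^ (g + R) * 2 := pow_succ _ _
    rw [← add_assoc g R 1, e]
    field_simp
    ring

theorem ln_mono : StrictMono Ln := by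
  intro a b h
  unfold Ln
  exact Nat.pow_lt_pow_right (by norm_num) (Nat.pow_lt_pow_right (by norm_num)
    (Nat.pow_lt_pow_right (by norm_num) h))

theorem pf_ERL (h1 : T_YEG) (h2 : Pool.Agent.H6.NB.T_COD) : T_ERL := by
  classical
  intro κ V Q S g K prog c A σ O hc hU hO hD hC i j
  have hl : StrictMono Ln := ln_mono
  choose H u hA hH using hC
  obtain ⟨r₀, hr₀⟩ := eventually_atTop.1 (hc.eventually_gt_atTop (max i j))
  filter_upwards [eventually_ge_atTop (Ln r₀)] with m hm
  have hlen : ∀ y : List Bool, y.length ≤ (inst (V i).c i y).length := by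
    intro y
    unfold inst
    rw [h2.2]
    omega
  have hE : ∀ y : List Bool, y ∈ Err (V i) i O → m ≤ y.length → ∃ r, r₀ ≤ r ∧ m < H r ∧
      (Ln r ≤ (inst (V i).c i y).length ∧ (inst (V i).c i y).length < H r ∧
        ¬ (acck (K r) (prog r) (inst (V i).c i y) (msk (u r) O) ↔
          acck (K r) (prog r) (inst (V i).c i y) O)) := by
    intro y hy hmy
    set s := inst (V i).c i y with hs
    have hsy : y.length ≤ s.length := hlen y
    have hex : ∃ n, s.length < Ln n := ⟨s.length + 1, lt_of_lt_of_le (Nat.lt_succ_self _)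
      (hl.le_apply)⟩
    obtain ⟨n, hn⟩ : ∃ n, n = Nat.find hex := ⟨_, rfl⟩
    have hn1 : s.length < Ln n := by rw [hn]; exact Nat.find_spec hex
    have hn2 : ∀ n' < n, ¬ s.length < Ln n' := fun n' h => Nat.find_min hex (by rw [← hn]; exact h)
    have hn3 : r₀ < n := by
      by_contra hcon
      have := hl.monotone (not_lt.1 hcon)
      omega
    obtain ⟨r, rfl⟩ : ∃ r, n = r + 1 := ⟨n - 1, by omega⟩
    have hlr : Ln r ≤ s.length := not_lt.1 (hn2 r (Nat.lt_succ_self r))
    have hr0 : r₀ ≤ r := by omega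
    have hir : i < c r := lt_of_le_of_lt (le_max_left i j) (hr₀ r hr0)
    have hAr := hA r s O hlr hn1
    have hV := hU r i hir y O
    rw [← hs] at hV
    have hY := h1 A σ O s hO (hD s)
    have hbad : ¬ (A s O ↔ y ∈ (V i).lang O) := by
      intro hcon
      refine hy ⟨fun h => hY.1 (hcon.2 h), fun h => hY.2 fun h' => h (hcon.1 h')⟩
    have hsH : s.length < H r := by
      by_contra hcon
      rw [if_neg hcon, ← hV] at hAr
      exact hbad hAr
    rw [if_pos hsH] at hAr
    refine ⟨r, hr0, by omega, hlr, hsH, fun hcon => hbad ?_⟩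
    rw [hAr, hV]
    exact hcon
  -- the sets
  obtain ⟨Es, hEs⟩ : ∃ E : ℕ → Set (List Bool), E = fun r => {y | r₀ ≤ r ∧ m < H r ∧
      (Ln r ≤ (inst (V i).c i y).length ∧ (inst (V i).c i y).length < H r ∧
        ¬ (acck (K r) (prog r) (inst (V i).c i y) (msk (u r) O) ↔
          acck (K r) (prog r) (inst (V i).c i y) O))} := ⟨_, rfl⟩
  have hEr : ∀ r, (S j m).hit O (Es r) ≤ 1 / 2 ^ (g j m + r + 1) := by
    intro r
    by_cases hr : r₀ ≤ r ∧ m < H r
    · have h3 := (hH r A σ O ⟨fun _ _ => rfl, fun _ _ => rfl⟩ hO).2 i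
        (lt_of_le_of_lt (le_max_left i j) (hr₀ r hr.1)) j
        (lt_of_le_of_lt (le_max_right i j) (hr₀ r hr.1)) m hr.2
      have e : Es r = {y | Ln r ≤ (inst (V i).c i y).length ∧ (inst (V i).c i y).length < H r ∧
        ¬ (acck (K r) (prog r) (inst (V i).c i y) (msk (u r) O) ↔
          acck (K r) (prog r) (inst (V i).c i y) O)} := by
        ext y
        simp only [hEs, Set.mem_setOf_eq]
        exact ⟨fun h => h.2.2, fun h => ⟨hr.1, hr.2, h⟩⟩
      rw [e]
      exact h3
    · have e : Es r = ∅ := by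
        ext y
        simp only [hEs, Set.mem_setOf_eq, Set.mem_empty_iff_false, iff_false]
        exact fun h => hr ⟨h.1, h.2.1⟩
      rw [e]
      unfold Sampler.hit
      simp only [Set.mem_empty_iff_false, if_false, Finset.sum_const_zero]
      positivity
  have hch : ∀ z : (S j m).alg.basis, ∃ r, (S j m).out z ∈ {x | x ∈ Err (V i) i O ∧ m ≤ x.length} →
      (S j m).out z ∈ Es r := by
    intro z
    by_cases hz : (S j m).out z ∈ {x | x ∈ Err (V i) i O ∧ m ≤ x.length}
    · obtain ⟨r, hr⟩ := hE _ hz.1 hz.2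
      exact ⟨r, fun _ => by rw [hEs]; exact hr⟩
    · exact ⟨0, fun h => absurd h hz⟩
  choose rr hrr using hch
  set R := (univ : Finset (S j m).alg.basis).sup rr + 1 with hR
  have hlt : ∀ z, rr z < R := fun z => Nat.lt_succ_of_le (Finset.le_sup (mem_univ z))
  have h4 : (S j m).hit O {x | x ∈ Err (V i) i O ∧ m ≤ x.length} ≤
      ∑ r ∈ range R, (S j m).hit O (Es r) := by
    unfold Sampler.hit
    rw [Finset.sum_comm]
    refine Finset.sum_le_sum fun z _ => ?_
    by_cases hz : (S j m).out z ∈ {x | x ∈ Err (V i) i O ∧ m ≤ x.length}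
    · rw [if_pos hz]
      refine le_trans (le_of_eq ?_) (Finset.single_le_sum (f := fun r => if (S j m).out z ∈ Es r then
        ‖(S j m).alg.state O (S j m).alg.T z‖ ^ 2 else 0) (fun r _ => by
          split_ifs <;> positivity) (mem_range.2 (hlt z)))
      rw [if_pos (hrr z hz)]
    · rw [if_neg hz]
      refine Finset.sum_nonneg fun r _ => ?_
      split_ifs <;> positivity
  refine h4.trans ((Finset.sum_le_sum fun r _ => hEr r).trans ?_)
  rw [geo_bd]
  have : (0 : ℝ) < 1 / 2 ^ (g j m + R) := by positivity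
  linarith

end Pool.Agent.H97.GS
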