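import Pool.Agent.H75.GS.Targets
import Pool.Agent.H48.OQ.FMG

set_option autoImplicit false

namespace Pool.Agent.H97.GS

open Finset Pool.Agent.H6.NB Pool.Agent.H70.OQ Pool.Agent.H75.GS Pool.Agent.H48.OQ.FMG

open Classical in
theorem pf_FMX (h1 : T_CLH) (h2 : Pool.Agent.H6.NB.T_COD) (h3 : Pool.Agent.H6.NB.T_LVL)
    (h4 : Pool.Agent.H6.NB.T_FIS) : T_FMX := by
  intro k K prog n a t o hprog hn hnt
  have hlen : ∀ s : Om n (2 ^ a), s.1.length < t ^ 2 := fun s => lt_of_lt_of_le s.2.2 hnt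
  have ht : 1 ≤ t := by
    by_contra h
    have ht0 : t = 0 := by omega
    subst ht0
    have : 0 < n ^ 2 ^ a := by positivity
    omega
  obtain ⟨Ws, hW1, hW2⟩ := h4.1 (t - 1)
  rw [Nat.sub_add_cancel ht] at hW1
  have hsq : ∀ (s : Om n (2 ^ a)) (x : ℕ), x ^ 2 ≤ s.1.length → x < t := by
    intro s x hx
    by_contra hcon
    push Not at hcon
    have := Nat.pow_le_pow_left hcon 2
    have := hlen s
    omega
  refine ⟨fun s y => decide (acck K prog s.1 (fun w => y (clg k n (2 ^ a) o w))), ⟨?_, ?_, ?_⟩, ?_⟩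
  · intro s
    have := (alt_fm (V := Cg k n (2 ^ a)) (fun w => w.length ^ 2 ≤ s.1.length) t Ws hW1
      (fun w hw => hW2 w (by have := hsq s _ hw; omega)) K
      (fun ws y => (prog s.1 ws).eval (fun w => y (clg k n (2 ^ a) o w)) = true) (by
        intro ws hl hws
        refine ⟨cv (clg k n (2 ^ a) o) (prog s.1 ws), ?_, fun y => ?_⟩
        · rw [cv_depth]
          exact (hsq s _ (hprog s.1 ws hl hws).1).le
        · rw [cv_eval])).1
    exact this
  · intro s y y' hy
    rw [decide_eq_decide]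
    unfold acck
    refine alt_congr _ K true _ _ (fun ws hl hws => ?_)
    obtain ⟨-, m, hm, hsh⟩ := hprog s.1 ws hl hws
    rw [evc (prog s.1 ws) m (fun w => y (clg k n (2 ^ a) o w))
      (fun w => y' (clg k n (2 ^ a) o w)) hsh]
    intro w hw
    exact hy _ (low_clg h1 h3 h2 hn o s w m hm hw)
  · intro s
    exact (h3 n a hn).2 s
  · intro s T e P
    simp only [accG, decide_eq_true_eq]

end Pool.Agent.H97.GS
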